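import Mathlib
import Pool.Agent.W516.KU.Defs

set_option autoImplicit false
set_option linter.unusedVariables false

namespace Pool.Agent.W930.KU

open Module TensorProduct Pool.Agent.W516.K3 Pool.Agent.W516.KU

variable {T : Type} [AddCommGroup T] [Module ℝ T] {b : T →ₗ[ℝ] T →ₗ[ℝ] ℝ} {J : Module.End ℝ T}
  {e f : T}

lemma xx_apply (u v t : T) : xx b J u v t =
    b v t • u - b u t • v + (b (J v) t • J u - b (J u) t • J v) := by
  simp [xx, wdg]

lemma JJ (hH : Herm b J) (u : T) : J (J u) = -u := by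
  have := congrArg (fun x : Module.End ℝ T => x u) hH.sq
  simpa using this

lemma Jl (hH : Herm b J) (u v : T) : b (J u) v = - b u (J v) := by
  rw [← hH.isom (J u) v, JJ hH, map_neg, LinearMap.neg_apply]

lemma bJ (hH : Herm b J) (u : T) : b u (J u) = 0 := by
  have h1 := Jl hH u u
  rw [hH.symm] at h1
  linarith

lemma swap (hH : Herm b J) (hh : HypJ b J e f) : HypJ b J f e where
  ee := hh.ff
  ff := hh.ee
  ef := by rw [hH.symm]; exact hh.ef
  eJf := by rw [hH.symm, Jl hH, hh.eJf, neg_zero]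

lemma xx_swap (u v : T) : xx b J v u = - xx b J u v := by
  ext t
  rw [LinearMap.neg_apply, xx_apply, xx_apply]
  abel

lemma T0_swap : T0 b J f e = T0 b J e f := by
  unfold T0
  ext v
  simp only [Submodule.mem_inf]
  tauto

lemma mem_T0 (v : T) : v ∈ T0 b J e f ↔ b e v = 0 ∧ b f v = 0 ∧ b (J e) v = 0 ∧ b (J f) v = 0 := by
  unfold T0
  simp only [Submodule.mem_inf, LinearMap.mem_ker]
  tauto

/-- The values of the pairings. -/
structure Tab (b : T →ₗ[ℝ] T →ₗ[ℝ] ℝ) (J : Module.End ℝ T) (e f : T) : Prop where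
  ee : b e e = 0
  ef : b e f = 1
  eJe : b e (J e) = 0
  eJf : b e (J f) = 0
  fe : b f e = 1
  ff : b f f = 0
  fJe : b f (J e) = 0
  fJf : b f (J f) = 0
  Jee : b (J e) e = 0
  Jef : b (J e) f = 0
  JeJe : b (J e) (J e) = 0
  JeJf : b (J e) (J f) = 1
  Jfe : b (J f) e = 0
  Jff : b (J f) f = 0
  JfJe : b (J f) (J e) = 1
  JfJf : b (J f) (J f) = 0

lemma tab (hH : Herm b J) (hh : HypJ b J e f) : Tab b J e f where
  ee := hh.ee
  ef := hh.ef
  eJe := bJ hH e
  eJf := hh.eJf
  fe := (swap hH hh).ef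
  ff := hh.ff
  fJe := (swap hH hh).eJf
  fJf := bJ hH f
  Jee := by rw [hH.symm]; exact bJ hH e
  Jef := by rw [hH.symm]; exact (swap hH hh).eJf
  JeJe := by rw [hH.isom]; exact hh.ee
  JeJf := by rw [hH.isom]; exact hh.ef
  Jfe := by rw [hH.symm]; exact hh.eJf
  Jff := by rw [hH.symm]; exact bJ hH f
  JfJe := by rw [hH.isom]; exact (swap hH hh).ef
  JfJf := by rw [hH.isom]; exact hh.ff

lemma h_apply (v : T) : xx b J e f v =
    b f v • e - b e v • f + (b (J f) v • J e - b (J e) v • J f) := xx_apply e f v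

/-- Pairings with `h v`. -/
lemma pair_h (t : Tab b J e f) (v : T) :
    b e (xx b J e f v) = - b e v ∧ b f (xx b J e f v) = b f v ∧
    b (J e) (xx b J e f v) = - b (J e) v ∧ b (J f) (xx b J e f v) = b (J f) v := by
  rw [h_apply]
  simp only [map_add, map_sub, map_smul, smul_eq_mul, t.ee, t.ef, t.eJe, t.eJf, t.fe, t.ff, t.fJe,
    t.fJf, t.Jee, t.Jef, t.JeJe, t.JeJf, t.Jfe, t.Jff, t.JfJe, t.JfJf]
  refine ⟨?_, ?_, ?_, ?_⟩ <;> ring

lemma h_e (t : Tab b J e f) : xx b J e f e = e := by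
  rw [h_apply, t.fe, t.ee, t.Jfe, t.Jee]; simp

lemma h_Je (t : Tab b J e f) : xx b J e f (J e) = J e := by
  rw [h_apply, t.fJe, t.eJe, t.JfJe, t.JeJe]; simp

lemma h_f (t : Tab b J e f) : xx b J e f f = -f := by
  rw [h_apply, t.ff, t.ef, t.Jff, t.Jef]; simp

lemma h_Jf (t : Tab b J e f) : xx b J e f (J f) = -(J f) := by
  rw [h_apply, t.fJf, t.eJf, t.JfJf, t.JeJf]; simp

lemma h_T0 {v : T} (hv : v ∈ T0 b J e f) : xx b J e f v = 0 := by
  obtain ⟨h1, h2, h3, h4⟩ := (mem_T0 v).1 hv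
  rw [h_apply, h1, h2, h3, h4]; simp

lemma T0_of_h (t : Tab b J e f) {v : T} (hv : xx b J e f v = 0) : v ∈ T0 b J e f := by
  obtain ⟨h1, h2, h3, h4⟩ := pair_h t v
  rw [hv, map_zero] at h1 h2 h3 h4
  rw [mem_T0]
  exact ⟨by linarith, by linarith, by linarith, by linarith⟩

/-- `h ^ 3 = h`. -/
lemma h_cube (t : Tab b J e f) (v : T) :
    xx b J e f (xx b J e f (xx b J e f v)) = xx b J e f v := by
  obtain ⟨h1, h2, h3, h4⟩ := pair_h t v
  obtain ⟨h5, h6, h7, h8⟩ := pair_h t (xx b J e f v)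
  rw [h_apply (xx b J e f (xx b J e f v)), h5, h6, h7, h8, h1, h2, h3, h4, h_apply v]
  simp

lemma eig_zero (t : Tab b J e f) {w : T} (c : ℝ) (hc : c ^ 3 ≠ c)
    (hw : xx b J e f w = c • w) : w = 0 := by
  have h1 := h_cube t w
  rw [hw, map_smul, hw, map_smul, map_smul, hw, smul_smul, smul_smul] at h1
  rw [← sub_eq_zero, ← sub_smul] at h1
  have h2 : c * c * c - c ≠ 0 := by
    intro h
    apply hc
    linarith [h, pow_succ c 2, pow_succ c 1]
  exact (smul_eq_zero.1 h1).resolve_left h2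

lemma eig_one (t : Tab b J e f) {w : T} (hw : xx b J e f w = w) :
    w = b f w • e + b (J f) w • J e := by
  obtain ⟨h1, h2, h3, h4⟩ := pair_h t w
  rw [hw] at h1 h3
  have h5 : b e w = 0 := by linarith
  have h6 : b (J e) w = 0 := by linarith
  conv_lhs => rw [← hw, h_apply, h5, h6]
  simp

/-- An endomorphism is determined by its values on `e, J e, f, J f` and on `T0`. -/
lemma ext_T (t : Tab b J e f) {x y : Module.End ℝ T} (h1 : x e = y e) (h2 : x (J e) = y (J e))
    (h3 : x f = y f) (h4 : x (J f) = y (J f)) (h5 : ∀ v ∈ T0 b J e f, x v = y v) : x = y := by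
  ext v
  set w := v - (b f v • e + b (J f) v • J e + b e v • f + b (J e) v • J f) with hw
  have hw0 : w ∈ T0 b J e f := by
    rw [mem_T0, hw]
    simp only [map_add, map_sub, map_smul, smul_eq_mul, t.ee, t.ef, t.eJe, t.eJf, t.fe, t.ff,
      t.fJe, t.fJf, t.Jee, t.Jef, t.JeJe, t.JeJf, t.Jfe, t.Jff, t.JfJe, t.JfJf]
    refine ⟨?_, ?_, ?_, ?_⟩ <;> ring
  have e1 : v = w + (b f v • e + b (J f) v • J e + b e v • f + b (J e) v • J f) := by
    rw [hw]; abel
  rw [e1]
  simp only [map_add, map_smul, h1, h2, h3, h4, h5 w hw0]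

lemma comm_apply {x : Module.End ℝ T} (h : x * J = J * x) (v : T) : x (J v) = J (x v) :=
  congrArg (fun y : Module.End ℝ T => y v) h

lemma ad_apply {h x : Module.End ℝ T} {c : ℝ} (hx : h * x - x * h = c • x) (v : T) :
    h (x v) = x (h v) + c • x v := by
  have h1 := congrArg (fun y : Module.End ℝ T => y v) hx
  simp only [LinearMap.sub_apply, Module.End.mul_apply, LinearMap.smul_apply] at h1
  rw [← h1]; abel

/-- Degree one. -/
lemma deg_one (hH : Herm b J) (hh : HypJ b J e f) {y : Module.End ℝ T}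
    (hs : ∀ u v, b (y u) v + b u (y v) = 0) (hc : y * J = J * y)
    (hy : xx b J e f * y - y * xx b J e f = (1 : ℝ) • y) :
    -(y f) ∈ T0 b J e f ∧ y = xx b J e (-(y f)) := by
  have t := tab hH hh
  have h0 : -(y f) ∈ T0 b J e f := by
    refine Submodule.neg_mem _ (T0_of_h t ?_)
    rw [ad_apply hy, h_f t, map_neg, one_smul]
    abel
  refine ⟨h0, ?_⟩
  set s := -(y f) with hsd
  have hyf : y f = -s := by rw [hsd, neg_neg]
  obtain ⟨q1, q2, q3, q4⟩ := (mem_T0 s).1 h0
  have hye : y e = 0 := by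
    refine eig_zero t 2 (by norm_num) ?_
    rw [ad_apply hy, h_e t]
    module
  have hyJe : y (J e) = 0 := by rw [comm_apply hc, hye, map_zero]
  have r1 : b s e = 0 := by rw [hH.symm]; exact q1
  have r2 : b s f = 0 := by rw [hH.symm]; exact q2
  have r3 : b s (J e) = 0 := by rw [hH.symm]; exact q3
  have r4 : b s (J f) = 0 := by rw [hH.symm]; exact q4
  have r5 : b (J s) e = 0 := by rw [Jl hH, r3, neg_zero]
  have r6 : b (J s) f = 0 := by rw [Jl hH, r4, neg_zero]
  have r7 : b (J s) (J e) = 0 := by rw [hH.isom]; exact r1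
  have r8 : b (J s) (J f) = 0 := by rw [hH.isom]; exact r2
  refine ext_T t ?_ ?_ ?_ ?_ ?_
  · rw [hye, xx_apply, r1, t.ee, r5, t.Jee]; simp
  · rw [hyJe, xx_apply, r3, t.eJe, r7, t.JeJe]; simp
  · rw [hyf, xx_apply, r2, t.ef, r6, t.Jef]; simp
  · rw [comm_apply hc, hyf, map_neg, xx_apply, r4, t.eJf, r8, t.JeJf]; simp
  · intro v hv
    obtain ⟨p1, p2, p3, p4⟩ := (mem_T0 v).1 hv
    have h1 : xx b J e f (y v) = y v := by
      rw [ad_apply hy, h_T0 hv, map_zero, one_smul, zero_add]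
    rw [eig_one t h1, xx_apply, p1, p3]
    have h2 : b f (y v) = b s v := by
      have := hs f v
      rw [hyf, map_neg, LinearMap.neg_apply] at this
      linarith
    have h3 : b (J f) (y v) = b (J s) v := by
      have := hs (J f) v
      rw [comm_apply hc, hyf, map_neg, map_neg, LinearMap.neg_apply] at this
      linarith
    rw [h2, h3]
    simp

/-- Degree two. -/
lemma deg_two (hH : Herm b J) (hh : HypJ b J e f) {y : Module.End ℝ T}
    (hs : ∀ u v, b (y u) v + b u (y v) = 0) (hc : y * J = J * y)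
    (hy : xx b J e f * y - y * xx b J e f = (2 : ℝ) • y) :
    ∃ α : ℝ, y = α • xx b J e (J e) := by
  have t := tab hH hh
  have hye : y e = 0 := by
    refine eig_zero t 3 (by norm_num) ?_
    rw [ad_apply hy, h_e t]
    module
  have hyJe : y (J e) = 0 := by rw [comm_apply hc, hye, map_zero]
  have hf1 : xx b J e f (y f) = y f := by
    rw [ad_apply hy, h_f t, map_neg]
    module
  have hf2 := eig_one t hf1
  have hf3 : b f (y f) = 0 := by
    have h1 := hs f f
    rw [hH.symm] at h1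
    linarith
  rw [hf3, zero_smul, zero_add] at hf2
  set c := b (J f) (y f) with hcd
  have hval : ∀ v, xx b J e (J e) v = (2 * b (J e) v) • e - (2 * b e v) • J e := by
    intro v
    rw [xx_apply, JJ hH, map_neg, LinearMap.neg_apply]
    module
  refine ⟨-c / 2, ?_⟩
  refine ext_T t ?_ ?_ ?_ ?_ ?_
  · rw [hye, LinearMap.smul_apply, hval, t.Jee, t.ee]; simp
  · rw [hyJe, LinearMap.smul_apply, hval, t.JeJe, t.eJe]; simp
  · rw [hf2, LinearMap.smul_apply, hval, t.Jef, t.ef]
    module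
  · rw [comm_apply hc, hf2, map_smul, JJ hH, LinearMap.smul_apply, hval, t.JeJf, t.eJf]
    module
  · intro v hv
    obtain ⟨p1, p2, p3, p4⟩ := (mem_T0 v).1 hv
    have h1 : y v = 0 := by
      refine eig_zero t 2 (by norm_num) ?_
      rw [ad_apply hy, h_T0 hv, map_zero, zero_add]
    rw [h1, LinearMap.smul_apply, hval, p1, p3]
    simp

theorem T_GR : S_GR := by
  intro T _ _ _ b J g hg e f hh hhg x hx
  have hH := hg.herm
  have t := tab hH hh
  set h := xx b J e f with hhd
  have h3 : h * h * h = h := by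
    ext v
    exact h_cube t v
  -- the projections
  set P : Module.End ℝ T := (1 / 2 : ℝ) • (h * h + h) with hP
  set Q : Module.End ℝ T := (1 / 2 : ℝ) • (h * h - h) with hQ
  set O : Module.End ℝ T := 1 - h * h with hO
  have hsum : P + O + Q = 1 := by
    rw [hP, hO, hQ]; module
  have hP1 : h * P = P := by
    rw [hP, mul_smul_comm, mul_add, ← mul_assoc, h3, add_comm]
  have hP2 : P * h = P := by
    rw [hP, smul_mul_assoc, add_mul, h3, add_comm]
  have hQ1 : h * Q = -Q := by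
    rw [hQ, mul_smul_comm, mul_sub, ← mul_assoc, h3, ← smul_neg, neg_sub]
  have hQ2 : Q * h = -Q := by
    rw [hQ, smul_mul_assoc, sub_mul, h3, ← smul_neg, neg_sub]
  have hO1 : h * O = 0 := by
    rw [hO, mul_sub, mul_one, ← mul_assoc, h3, sub_self]
  have hO2 : O * h = 0 := by
    rw [hO, sub_mul, one_mul, h3, sub_self]
  set a2 := P * x * Q with ha2
  set a1 := P * x * O + O * x * Q with ha1
  set z := P * x * P + O * x * O + Q * x * Q with hz
  set b1 := Q * x * O + O * x * P with hb1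
  set b2 := Q * x * P with hb2
  have hx5 : x = a2 + a1 + z + b1 + b2 := by
    have e1 : x = (P + O + Q) * x * (P + O + Q) := by rw [hsum, one_mul, mul_one]
    rw [ha2, ha1, hz, hb1, hb2]
    conv_lhs => rw [e1]
    noncomm_ring
  have l1 : ∀ A B : Module.End ℝ T, h * (A * x * B) = (h * A) * x * B := by
    intro A B; simp only [mul_assoc]
  have l2 : ∀ A B : Module.End ℝ T, (A * x * B) * h = A * x * (B * h) := by
    intro A B; simp only [mul_assoc]
  have k2 : h * a2 - a2 * h = (2 : ℝ) • a2 := by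
    rw [ha2, l1, l2, hP1, hQ2, mul_neg]
    module
  have k1 : h * a1 - a1 * h = (1 : ℝ) • a1 := by
    rw [ha1, mul_add, add_mul, l1, l2, l1, l2, hP1, hQ2, hO1, hO2, mul_zero, mul_neg, zero_mul,
      zero_mul]
    module
  have k0 : h * z - z * h = (0 : ℝ) • z := by
    rw [hz, mul_add, add_mul, mul_add, add_mul, l1, l2, l1, l2, l1, l2, hP1, hP2, hQ1, hQ2, hO1,
      hO2, mul_zero, mul_neg, neg_mul, neg_mul, zero_mul, zero_mul]
    module
  have m1 : h * b1 - b1 * h = (-1 : ℝ) • b1 := by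
    rw [hb1, mul_add, add_mul, l1, l2, l1, l2, hP2, hQ1, hO1, hO2, mul_zero, neg_mul, neg_mul,
      zero_mul, zero_mul]
    module
  have m2 : h * b2 - b2 * h = (-2 : ℝ) • b2 := by
    rw [hb2, l1, l2, hP2, hQ1, neg_mul, neg_mul]
    module
  -- the iterated brackets
  have hbr : ∀ y ∈ g, h * y - y * h ∈ g := fun y hy => hg.bracket h hhg y hy
  have hD : ∀ p q r s w : ℝ, h * (p • a2 + q • a1 + r • z + s • b1 + w • b2) -
      (p • a2 + q • a1 + r • z + s • b1 + w • b2) * h =
      (2 * p) • a2 + q • a1 + (0 : ℝ) • z + (-s) • b1 + (-2 * w) • b2 := by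
    intro p q r s w
    have e1 : h * (p • a2 + q • a1 + r • z + s • b1 + w • b2) -
      (p • a2 + q • a1 + r • z + s • b1 + w • b2) * h =
      p • (h * a2 - a2 * h) + q • (h * a1 - a1 * h) + r • (h * z - z * h) +
      s • (h * b1 - b1 * h) + w • (h * b2 - b2 * h) := by
      simp only [mul_add, add_mul, mul_smul_comm, smul_mul_assoc, smul_sub]
      abel
    rw [e1, k2, k1, k0, m1, m2]
    module
  have g0 : (1 : ℝ) • a2 + (1 : ℝ) • a1 + (1 : ℝ) • z + (1 : ℝ) • b1 + (1 : ℝ) • b2 ∈ g := by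
    simp only [one_smul]
    rw [← hx5]; exact hx
  have g1 := hbr _ g0
  rw [hD] at g1
  have g2 := hbr _ g1
  rw [hD] at g2
  have g3 := hbr _ g2
  rw [hD] at g3
  have g4 := hbr _ g3
  rw [hD] at g4
  have ga2 : a2 ∈ g := by
    have := g.add_mem (g.smul_mem (1 / 24) (g.sub_mem g4 g2)) (g.smul_mem (1 / 12) (g.sub_mem g3 g1))
    convert this using 1
    module
  have gb2 : b2 ∈ g := by
    have := g.sub_mem (g.smul_mem (1 / 24) (g.sub_mem g4 g2)) (g.smul_mem (1 / 12) (g.sub_mem g3 g1))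
    convert this using 1
    module
  have ga1 : a1 ∈ g := by
    have := g.sub_mem (g.sub_mem (g.smul_mem (1 / 2) (g.add_mem g1 g2)) (g.smul_mem 3 ga2)) gb2
    convert this using 1
    module
  have gb1 : b1 ∈ g := by
    have := g.sub_mem (g.sub_mem (g.smul_mem (1 / 2) (g.sub_mem g2 g1)) (g.smul_mem 3 gb2)) ga2
    convert this using 1
    module
  have gz : z ∈ g := by
    have := g.sub_mem (g.sub_mem (g.sub_mem (g.sub_mem hx ga2) ga1) gb1) gb2
    convert this using 1
    rw [hx5]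
    abel
  -- identification
  obtain ⟨ht1, ht2⟩ := deg_one hH hh (hg.skew a1 ga1) (hg.commJ a1 ga1) k1
  have hh' := swap hH hh
  have hsw : xx b J f e = -h := by rw [hhd, xx_swap]
  obtain ⟨hs1, hs2⟩ := deg_one hH hh' (hg.skew b1 gb1) (hg.commJ b1 gb1) (by
    rw [hsw, neg_mul, mul_neg, sub_neg_eq_add]
    have := congrArg (fun y => -y) m1
    simp only [neg_sub] at this
    rw [show -(h * b1) + b1 * h = b1 * h - h * b1 by abel, this]
    module)
  obtain ⟨α, hα⟩ := deg_two hH hh (hg.skew a2 ga2) (hg.commJ a2 ga2) k2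
  obtain ⟨β, hβ⟩ := deg_two hH hh' (hg.skew b2 gb2) (hg.commJ b2 gb2) (by
    rw [hsw, neg_mul, mul_neg, sub_neg_eq_add]
    have := congrArg (fun y => -y) m2
    simp only [neg_sub] at this
    rw [show -(h * b2) + b2 * h = b2 * h - h * b2 by abel, this]
    module)
  rw [T0_swap] at hs1
  refine ⟨-(a1 f), -(b1 e), α, β, z, ht1, hs1, ?_, ?_, ?_, ?_, gz, ?_, ?_⟩
  · rw [← ht2]; exact ga1
  · rw [← hs2]; exact gb1
  · rw [← hα]; exact ga2
  · rw [← hβ]; exact gb2
  · rw [zero_smul, sub_eq_zero] at k0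
    exact k0.symm
  · rw [← ht2, ← hs2, ← hα, ← hβ]
    exact hx5

end Pool.Agent.W930.KU
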